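import Mathlib
import Pool.Agent.Y1.KN.Stm3

/-!
# Reduction modulo three: the bounds of Minkowski and for 2-groups with one involution
-/

set_option linter.unusedSectionVars false
set_option linter.unusedVariables false

namespace Pool.Agent.Y778.KN

open Finset Module Pool.Agent.TH170.MF Pool.Agent.TH170.QC Pool.Agent.Y1.KN

section core

variable {G X : Type*} [Group G] [MulAction G X] [Fintype X]

theorem tr_int_mem {S : Submodule ℚ (X → ℚ)} (hS : Invariant G S) (η : G) {u : X → ℤ}
    (hu : u ∈ intPart S) : (fun x => u (η • x)) ∈ intPart S := by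
  rw [mem_intPart] at hu ⊢
  exact hS η _ hu

/-- A translation that is trivial modulo three is trivial. -/
theorem rigid {S : Submodule ℚ (X → ℚ)} (hS : Invariant G S) (η : G)
    (h3 : ∀ u ∈ intPart S, ∀ x, (3 : ℤ) ∣ u (η • x) - u x) :
    ∀ n : ℕ, ∀ u ∈ intPart S, (∑ x, u x ^ 2).toNat ≤ n → ∀ x, u (η • x) = u x := by
  intro n
  induction n with
  | zero =>
    intro u hu hn x
    have h0 : ∑ x, u x ^ 2 = 0 := by
      have h1 : 0 ≤ ∑ x, u x ^ 2 := Finset.sum_nonneg fun x _ => sq_nonneg _
      omega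
    have h2 : ∀ y, u y = 0 := by
      intro y
      have h3 := (Finset.sum_eq_zero_iff_of_nonneg (fun x _ => sq_nonneg (u x))).1 h0 y (mem_univ y)
      exact pow_eq_zero_iff (two_ne_zero) |>.1 h3
    rw [h2, h2]
  | succ n ih =>
    intro u hu hn
    by_cases hu0 : ∑ x, u x ^ 2 = 0
    · intro x
      have h2 : ∀ y, u y = 0 := by
        intro y
        have h3 := (Finset.sum_eq_zero_iff_of_nonneg (fun x _ => sq_nonneg (u x))).1 hu0 y
          (mem_univ y)
        exact pow_eq_zero_iff (two_ne_zero) |>.1 h3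
      rw [h2, h2]
    · have hpos : 0 < ∑ x, u x ^ 2 :=
        lt_of_le_of_ne (Finset.sum_nonneg fun x _ => sq_nonneg _) (Ne.symm hu0)
      choose w hw using h3 u hu
      -- `w` is in the lattice
      have hwS : w ∈ intPart S := by
        rw [mem_intPart]
        have h4 : (fun x => (w x : ℚ)) = (1 / 3 : ℚ) •
            ((fun x => ((fun y => u (η • y)) x : ℚ)) - fun x => (u x : ℚ)) := by
          funext x
          have h5 : ((u (η • x) : ℤ) : ℚ) - (u x : ℚ) = 3 * (w x : ℚ) := by
            exact_mod_cast hw x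
          simp only [Pi.smul_apply, Pi.sub_apply, smul_eq_mul]
          rw [h5]
          ring
        rw [h4]
        exact S.smul_mem _ (S.sub_mem (tr_int_mem hS η hu) hu)
      have hsum : ∑ x, u (η • x) ^ 2 = ∑ x, u x ^ 2 :=
        Equiv.sum_comp (MulAction.toPerm η) (fun x => u x ^ 2)
      have hle : 9 * ∑ x, w x ^ 2 ≤ 4 * ∑ x, u x ^ 2 := by
        have h6 : 9 * ∑ x, w x ^ 2 = ∑ x, (u (η • x) - u x) ^ 2 := by
          rw [Finset.mul_sum]
          refine sum_congr rfl fun x _ => ?_
          rw [hw x]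
          ring
        have h7 : ∑ x, (u (η • x) - u x) ^ 2 ≤ ∑ x, (2 * u (η • x) ^ 2 + 2 * u x ^ 2) := by
          refine sum_le_sum fun x _ => ?_
          nlinarith [sq_nonneg (u (η • x) + u x)]
        rw [sum_add_distrib, ← mul_sum, ← mul_sum, hsum] at h7
        linarith
      have hlt : ∑ x, w x ^ 2 < ∑ x, u x ^ 2 := by
        have h8 : 0 ≤ ∑ x, w x ^ 2 := Finset.sum_nonneg fun x _ => sq_nonneg _
        nlinarith
      have hfix := ih w hwS (by
        have h8 : 0 ≤ ∑ x, w x ^ 2 := Finset.sum_nonneg fun x _ => sq_nonneg _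
        omega)
      have hww : 3 * ∑ x, w x ^ 2 = 0 := by
        have h9 : 3 * ∑ x, w x ^ 2 = ∑ x, w (η • x) * u (η • x) - ∑ x, w x * u x := by
          rw [← sum_sub_distrib, Finset.mul_sum]
          refine sum_congr rfl fun x _ => ?_
          rw [hfix x, ← mul_sub, hw x]
          ring
        have h10 : ∑ x, w (η • x) * u (η • x) = ∑ x, w x * u x :=
          Equiv.sum_comp (MulAction.toPerm η) (fun x => w x * u x)
        rw [h9, h10, sub_self]
      have hw0 : ∀ y, w y = 0 := by
        intro y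
        have h10 : ∑ x, w x ^ 2 = 0 := by omega
        have h11 := (Finset.sum_eq_zero_iff_of_nonneg (fun x _ => sq_nonneg (w x))).1 h10 y
          (mem_univ y)
        exact pow_eq_zero_iff (two_ne_zero) |>.1 h11
      intro x
      have h12 := hw x
      rw [hw0 x] at h12
      omega

/-- A translation that is trivial modulo three is trivial on the rational space. -/
theorem rigid' {S : Submodule ℚ (X → ℚ)} (hS : Invariant G S) (η : G)
    (h3 : ∀ u ∈ intPart S, ∀ x, (3 : ℤ) ∣ u (η • x) - u x) :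
    ∀ s ∈ S, ∀ x, s (η • x) = s x := by
  intro s hs x
  obtain ⟨N, hN, u, hu, hus⟩ := exists_multiple hs
  have h1 := rigid hS η h3 _ u hu le_rfl x
  have h2 := congrFun hus (η • x)
  have h3 := congrFun hus x
  simp only [Pi.smul_apply, smul_eq_mul] at h2 h3
  rw [h1, h3] at h2
  exact (mul_left_cancel₀ (by exact_mod_cast hN) h2).symm

/-- The action on the reduction. -/
def redTr {S : Submodule ℚ (X → ℚ)} (hS : Invariant G S) (γ : G) :
    redSpace 3 S →ₗ[ZMod 3] redSpace 3 S where
  toFun v := ⟨fun x => v.1 (γ • x), by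
    obtain ⟨w, hw, hwv⟩ := v.2
    refine ⟨fun x => w (γ • x), tr_int_mem hS γ hw, ?_⟩
    funext x
    exact congrFun hwv (γ • x)⟩
  map_add' _ _ := rfl
  map_smul' _ _ := rfl

end core

/-- The bound of Minkowski. -/
theorem mink : P_mink := by
  intro G X _ _ _ _ S hS hf
  classical
  have hinj : Function.Injective (fun γ : G => redTr hS γ) := by
    intro γ γ' h
    have h1 : γ'⁻¹ * γ = 1 := by
      apply hf
      apply rigid' hS
      intro u hu x
      have hu' := tr_int_mem hS γ'⁻¹ hu
      have h2 := congrArg (fun φ : redSpace 3 S →ₗ[ZMod 3] redSpace 3 S =>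
        (φ ⟨fun y => (((fun x => u (γ'⁻¹ • x)) y : ℤ) : ZMod 3), ⟨_, hu', rfl⟩⟩).1 x) h
      have h3 : ((u (γ'⁻¹ • γ • x) : ℤ) : ZMod 3) = ((u (γ'⁻¹ • γ' • x) : ℤ) : ZMod 3) := h2
      rw [inv_smul_smul, ← mul_smul, ZMod.intCast_eq_intCast_iff_dvd_sub] at h3
      have h4 := (dvd_neg (a := (3 : ℤ))).2 h3
      rw [neg_sub] at h4
      exact_mod_cast h4
    have h5 := congrArg (γ' * ·) h1
    simpa using h5
  have : Finite (redSpace 3 S) := inferInstance
  have h6 : Nat.card G ≤ Nat.card (redSpace 3 S →ₗ[ZMod 3] redSpace 3 S) := by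
    have : Finite (redSpace 3 S →ₗ[ZMod 3] redSpace 3 S) :=
      Module.finite_of_finite (ZMod 3)
    exact Nat.card_le_card_of_injective _ hinj
  refine h6.trans (le_of_eq ?_)
  rw [Module.natCard_eq_pow_finrank (K := ZMod 3)]
  rw [Module.finrank_linearMap, finrank_redSpace, Nat.card_eq_fintype_card, ZMod.card, sq]

/-- The arithmetic of the orders. -/
theorem two_pow_le {a d : ℕ} (hd : d ≠ 0) (h : 2 ^ a ∣ 3 ^ d - 1) : 2 ^ a ≤ 4 * d := by
  rcases Nat.even_or_odd d with he | ho
  · have h1 := padicValNat.pow_two_sub_pow (x := 3) (y := 1) (n := d) (by norm_num) (by norm_num)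
      (by norm_num) hd he
    have h2 : padicValNat 2 (3 + 1) = 2 := by
      have : (3 + 1 : ℕ) = 2 ^ 2 := by norm_num
      rw [this, padicValNat.prime_pow]
    have h3 : padicValNat 2 (3 - 1) = 1 := by
      have : (3 - 1 : ℕ) = 2 ^ 1 := by norm_num
      rw [this, padicValNat.prime_pow]
    rw [h2, h3, one_pow] at h1
    have hne : 3 ^ d - 1 ≠ 0 := by
      have : 3 ^ 1 ≤ 3 ^ d := Nat.pow_le_pow_right (by norm_num) (Nat.one_le_iff_ne_zero.2 hd)
      omega
    have h4 : a ≤ padicValNat 2 (3 ^ d - 1) := (padicValNat_dvd_iff_le hne).1 h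
    have h5 : a ≤ 2 + padicValNat 2 d := by omega
    calc 2 ^ a ≤ 2 ^ (2 + padicValNat 2 d) := Nat.pow_le_pow_right (by norm_num) h5
      _ = 4 * 2 ^ padicValNat 2 d := by rw [pow_add]; norm_num
      _ ≤ 4 * d := Nat.mul_le_mul_left 4 (Nat.le_of_dvd (Nat.pos_of_ne_zero hd) pow_padicValNat_dvd)
  · obtain ⟨k, rfl⟩ := ho
    have h1 : ¬ 4 ∣ 3 ^ (2 * k + 1) - 1 := by
      have h2 : 3 ^ (2 * k + 1) % 4 = 3 := by
        rw [pow_add, pow_mul, pow_one, Nat.mul_mod, Nat.pow_mod]
        norm_num
      generalize 3 ^ (2 * k + 1) = t at h2 ⊢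
      intro h3
      omega
    have h3 : a ≤ 1 := by
      by_contra hcon
      have h4 : 2 ^ 2 ∣ 2 ^ a := pow_dvd_pow 2 (by omega)
      exact h1 ((by norm_num : (4 : ℕ) = 2 ^ 2) ▸ h4.trans h)
    calc 2 ^ a ≤ 2 ^ 1 := Nat.pow_le_pow_right (by norm_num) h3
      _ ≤ 4 * (2 * k + 1) := by omega

/-- 2-groups with one involution that acts by `-1`. -/
theorem free : P_free := by
  intro G X _ _ _ _ S z a hS hS0 hz hcard hinv
  classical
  let V := {v : redSpace 3 S // v ≠ 0}
  have : Finite (redSpace 3 S) := inferInstance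
  have hone : ∀ v : redSpace 3 S, redTr hS (1 : G) v = v := fun v => Subtype.ext <| by
    funext x
    change v.1 ((1 : G) • x) = v.1 x
    rw [one_smul]
  have hmul : ∀ (γ δ : G) (v : redSpace 3 S), redTr hS γ (redTr hS δ v) = redTr hS (δ * γ) v :=
    fun γ δ v => Subtype.ext <| by
      funext x
      change v.1 (δ • γ • x) = v.1 ((δ * γ) • x)
      rw [mul_smul]
  letI : MulAction G V :=
    { smul := fun γ v => ⟨redTr hS γ⁻¹ v.1, fun h => v.2 (by
        have h1 := congrArg (redTr hS γ) h
        rw [hmul, inv_mul_cancel, hone, map_zero] at h1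
        exact h1)⟩
      one_smul := fun v => Subtype.ext (by
        change redTr hS (1 : G)⁻¹ v.1 = v.1
        rw [inv_one, hone])
      mul_smul := fun γ δ v => Subtype.ext (by
        change redTr hS (γ * δ)⁻¹ v.1 = redTr hS γ⁻¹ (redTr hS δ⁻¹ v.1)
        rw [hmul, mul_inv_rev]) }
  have hzz : z ≠ 1 := by
    rintro rfl
    obtain ⟨s, hs, hs0⟩ := (Submodule.ne_bot_iff S).1 hS0
    apply hs0
    funext x
    have h1 := hz s hs x
    rw [one_smul] at h1
    have h2 : s x = 0 := by linarith
    exact h2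
  -- free action
  have hfree : ∀ (γ : G) (v : V), γ • v = v → γ = 1 := by
    intro γ v hγ
    by_contra hne
    have h1 : ∀ n : ℕ, γ ^ n • v = v := by
      intro n
      induction n with
      | zero => rw [pow_zero, one_smul]
      | succ n ih => rw [pow_succ, mul_smul, hγ, ih]
    have h2 : orderOf γ ∣ 2 ^ a := hcard ▸ orderOf_dvd_natCard γ
    obtain ⟨k, hk, hk2⟩ := (Nat.dvd_prime_pow Nat.prime_two).1 h2
    have hk0 : k ≠ 0 := by
      rintro rfl
      rw [pow_zero] at hk2
      exact hne (orderOf_eq_one_iff.1 hk2)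
    obtain ⟨j, rfl⟩ := Nat.exists_eq_succ_of_ne_zero hk0
    have h3 : γ ^ 2 ^ j = z := by
      apply hinv
      · intro h
        have h4 := orderOf_dvd_of_pow_eq_one h
        rw [hk2, Nat.succ_eq_add_one] at h4
        have h5 := (Nat.pow_dvd_pow_iff_le_right (by norm_num : 1 < 2)).1 h4
        omega
      · rw [← pow_two, ← pow_mul, ← pow_succ, ← Nat.succ_eq_add_one, ← hk2, pow_orderOf_eq_one]
    have h6 : z • v = v := h3 ▸ h1 (2 ^ j)
    have h7 : redTr hS z⁻¹ v.1 = v.1 := congrArg Subtype.val h6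
    have h8 : redTr hS z v.1 = v.1 := by
      have h9 := congrArg (redTr hS z) h7
      rw [hmul, inv_mul_cancel, hone] at h9
      exact h9.symm
    apply v.2
    apply Subtype.ext
    funext x
    obtain ⟨w, hw, hwv⟩ := v.1.2
    have h10 := congrArg (fun t : redSpace 3 S => t.1 x) h8
    have h11 : v.1.1 (z • x) = v.1.1 x := h10
    rw [← hwv] at h11 ⊢
    have h12 := hz _ hw x
    have h13 : w (z • x) = - w x := by exact_mod_cast h12
    change ((w (z • x) : ℤ) : ZMod 3) = ((w x : ℤ) : ZMod 3) at h11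
    change ((w x : ℤ) : ZMod 3) = 0
    rw [h13] at h11
    push_cast at h11
    revert h11
    generalize ((w x : ℤ) : ZMod 3) = t
    revert t
    decide
  have : Finite V := inferInstance
  have hdvd : Nat.card G ∣ Nat.card V := by
    have : Fintype V := Fintype.ofFinite V
    have h1 := MulAction.card_eq_sum_card_group_div_card_stabilizer G V
    have h2 : ∀ v : V, Fintype.card (MulAction.stabilizer G v) = 1 := by
      intro v
      rw [Fintype.card_eq_one_iff]
      refine ⟨1, fun γ => Subtype.ext (hfree γ.1 v γ.2)⟩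
    simp only [h2, Nat.div_one] at h1
    rw [Nat.card_eq_fintype_card, Nat.card_eq_fintype_card, h1]
    exact Finset.dvd_sum fun _ _ => dvd_rfl
  have hV : Nat.card V = 3 ^ finrank ℚ S - 1 := by
    have h1 : Nat.card (redSpace 3 S) = 3 ^ finrank ℚ S := by
      rw [Module.natCard_eq_pow_finrank (K := ZMod 3), finrank_redSpace, Nat.card_eq_fintype_card,
        ZMod.card]
    have : Fintype (redSpace 3 S) := Fintype.ofFinite _
    have h2 : Nat.card V = Nat.card (redSpace 3 S) - 1 := by
      rw [Nat.card_eq_fintype_card, Nat.card_eq_fintype_card]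
      exact (Fintype.card_subtype_compl (fun v : redSpace 3 S => v = 0)).trans (by simp)
    rw [h2, h1]
  rw [hV, hcard] at hdvd
  rw [hcard]
  refine two_pow_le ?_ hdvd
  intro h0
  exact hS0 (Submodule.finrank_eq_zero.1 h0)

end Pool.Agent.Y778.KN
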